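import Pool.Agent.Q2N.Stmts

/-!
# REST: restriction to the subfield generated by the constants and the translates of `f`
-/

set_option autoImplicit false

open Module

namespace Pool.Agent.Q2N.H86

open Pool.Agent.UW

variable {F K : Type} [Field F] [Field K] [Algebra F K]

/-- the subfield generated by the constants and the translates of `f` -/
def LL (S : Dat F K) (f : K) : IntermediateField F K :=
  IntermediateField.adjoin F (Set.range fun n : ℤ => (S.σ ^ n) f)

theorem tr_mem (S : Dat F K) (f : K) (n : ℤ) : (S.σ ^ n) f ∈ LL S f :=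
  IntermediateField.subset_adjoin _ _ ⟨n, rfl⟩

theorem const_mem (S : Dat F K) (f : K) (a : F) : algebraMap F K a ∈ LL S f :=
  (LL S f).algebraMap_mem a

theorem LL_le (S : Dat F K) (f : K) (L : Subfield K) (h1 : ∀ a : F, algebraMap F K a ∈ L)
    (h2 : ∀ n : ℤ, (S.σ ^ n) f ∈ L) : ∀ x ∈ LL S f, x ∈ L := by
  have h : Subfield.closure (Set.range (algebraMap F K) ∪ Set.range fun n : ℤ => (S.σ ^ n) f) ≤
      L := by
    rw [Subfield.closure_le]
    rintro x (⟨a, rfl⟩ | ⟨n, rfl⟩)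
    · exact h1 a
    · exact h2 n
  exact fun x hx => h hx

theorem stab (S : Dat F K) (f : K) (h : K →+* K) (h1 : ∀ a : F, h (algebraMap F K a) ∈ LL S f)
    (h2 : ∀ n : ℤ, h ((S.σ ^ n) f) ∈ LL S f) : ∀ x ∈ LL S f, h x ∈ LL S f :=
  LL_le S f ((LL S f).toSubfield.comap h) h1 h2

theorem σ_mem (S : Dat F K) (f : K) : ∀ x ∈ LL S f, S.σ x ∈ LL S f := by
  refine stab S f (S.σ : K →+* K) (fun a => ?_) fun n => ?_
  · show S.σ (algebraMap F K a) ∈ _
    rw [S.σ_const]
    exact const_mem S f a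
  · have : S.σ ((S.σ ^ n) f) = (S.σ ^ (1 + n)) f := by
      rw [zpow_add, zpow_one]
      rfl
    show S.σ ((S.σ ^ n) f) ∈ _
    rw [this]
    exact tr_mem S f _

theorem σ_inv_mem (S : Dat F K) (f : K) : ∀ x ∈ LL S f, S.σ⁻¹ x ∈ LL S f := by
  refine stab S f ((S.σ⁻¹ : RingAut K) : K →+* K) (fun a => ?_) fun n => ?_
  · show S.σ⁻¹ (algebraMap F K a) ∈ _
    have : S.σ⁻¹ (algebraMap F K a) = algebraMap F K a := by
      have h := σ_zpow_const S (-1) a
      rwa [zpow_neg, zpow_one] at h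
    rw [this]
    exact const_mem S f a
  · have : S.σ⁻¹ ((S.σ ^ n) f) = (S.σ ^ (-1 + n)) f := by
      rw [zpow_add, zpow_neg, zpow_one]
      rfl
    show S.σ⁻¹ ((S.σ ^ n) f) ∈ _
    rw [this]
    exact tr_mem S f _

theorem c_zpow {S : Dat F K} {c : RingAut K} (h : ∀ x, c (S.σ x) = S.σ⁻¹ (c x)) (n : ℤ) (x : K) :
    c ((S.σ ^ n) x) = (S.σ ^ (-n)) (c x) := by
  have e : c * S.σ * c⁻¹ = S.σ⁻¹ := by
    ext x
    show c (S.σ (c⁻¹ x)) = _
    rw [h]
    congr 1
    exact c.apply_symm_apply x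
  have e2 : c * S.σ ^ n * c⁻¹ = S.σ ^ (-n) := by
    rw [← conj_zpow, e, inv_zpow, zpow_neg]
  have e3 : c * S.σ ^ n = S.σ ^ (-n) * c := by rw [← e2, inv_mul_cancel_right]
  exact DFunLike.congr_fun e3 x

theorem c_mem {S : Dat F K} {c : RingAut K} {e : RingAut F} {f : K} (h : Sym S c e f) :
    ∀ x ∈ LL S f, c x ∈ LL S f := by
  refine stab S f (c : K →+* K) (fun a => ?_) fun n => ?_
  · show c (algebraMap F K a) ∈ _
    rw [h.alg]
    exact const_mem S f _
  · show c ((S.σ ^ n) f) ∈ _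
    rw [c_zpow h.comm, h.fix]
    exact tr_mem S f _

/-- the restriction of an automorphism -/
def resAut (L : IntermediateField F K) (g : RingAut K) (h1 : ∀ x ∈ L, g x ∈ L)
    (h2 : ∀ x ∈ L, g⁻¹ x ∈ L) : RingAut L where
  toFun x := ⟨g x, h1 x x.2⟩
  invFun x := ⟨g⁻¹ x, h2 x x.2⟩
  left_inv x := Subtype.ext (g.symm_apply_apply (x : K))
  right_inv x := Subtype.ext (g.apply_symm_apply (x : K))
  map_mul' x y := Subtype.ext (map_mul g (x : K) y)
  map_add' x y := Subtype.ext (map_add g (x : K) y)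

theorem resAut_coe {L : IntermediateField F K} {g : RingAut K} {h1 : ∀ x ∈ L, g x ∈ L}
    {h2 : ∀ x ∈ L, g⁻¹ x ∈ L} (x : L) : ((resAut L g h1 h2 x : L) : K) = g x := rfl

theorem resAut_inv_coe {L : IntermediateField F K} {g : RingAut K} {h1 : ∀ x ∈ L, g x ∈ L}
    {h2 : ∀ x ∈ L, g⁻¹ x ∈ L} (x : L) : (((resAut L g h1 h2)⁻¹ x : L) : K) = g⁻¹ x := rfl

theorem resAut_zpow_coe {L : IntermediateField F K} {g : RingAut K} {h1 : ∀ x ∈ L, g x ∈ L}
    {h2 : ∀ x ∈ L, g⁻¹ x ∈ L} (n : ℤ) (x : L) :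
    (((resAut L g h1 h2 ^ n) x : L) : K) = (g ^ n) x := by
  have p1 : ∀ (n : ℕ) (x : L), (((resAut L g h1 h2 ^ n) x : L) : K) = (g ^ n) x := by
    intro n
    induction n with
    | zero => intro x; rfl
    | succ n ih =>
      intro x
      rw [pow_succ, pow_succ]
      show (((resAut L g h1 h2 ^ n) (resAut L g h1 h2 x) : L) : K) = (g ^ n) (g x)
      rw [ih, resAut_coe]
  have p2 : ∀ (n : ℕ) (x : L), ((((resAut L g h1 h2)⁻¹ ^ n) x : L) : K) = (g⁻¹ ^ n) x := by
    intro n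
    induction n with
    | zero => intro x; rfl
    | succ n ih =>
      intro x
      rw [pow_succ, pow_succ]
      show ((((resAut L g h1 h2)⁻¹ ^ n) ((resAut L g h1 h2)⁻¹ x) : L) : K) = (g⁻¹ ^ n) (g⁻¹ x)
      rw [ih, resAut_inv_coe]
  obtain ⟨m, rfl | rfl⟩ := n.eq_nat_or_neg
  · rw [zpow_natCast, zpow_natCast, p1]
  · rw [zpow_neg, zpow_neg, zpow_natCast, zpow_natCast, ← inv_pow, ← inv_pow, p2]

/-- the restricted data -/
noncomputable def resDat (S : Dat F K) (f : K) (hf : ∀ z : F, algebraMap F K z ≠ f) :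
    Dat F (LL S f) where
  X := S.X
  v p := (S.v p).comap (algebraMap (LL S f) K)
  v_const p c hc := S.v_const p c hc
  res p a b ha hb h := S.res p (a : K) b (fun h0 => ha (Subtype.ext h0))
    (fun h0 => hb (Subtype.ext h0)) h
  fin a ha := S.fin (a : K) fun h0 => ha (Subtype.ext h0)
  const a h := by
    obtain ⟨c, hc⟩ := S.const (a : K) h
    exact ⟨c, Subtype.ext hc⟩
  ne := S.ne
  nonconst := ⟨⟨f, by have := tr_mem S f 0; exact this⟩, fun c h =>
    hf c (congrArg Subtype.val h)⟩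
  σ := resAut (LL S f) S.σ (σ_mem S f) (σ_inv_mem S f)
  σ_const c := Subtype.ext (S.σ_const c)
  τ := S.τ
  v_σ p a := S.v_σ p (a : K)
  free := S.free

theorem rest : RestStmt := by
  intro F K _ _ _ S c e f h
  have hc' : c⁻¹ = c := by
    ext x
    show c.symm x = c x
    rw [RingEquiv.symm_apply_eq, h.inv]
  refine ⟨LL S f, inferInstance, inferInstance, resDat S f h.nc,
    resAut (LL S f) c (c_mem h) (by rw [hc']; exact c_mem h), ⟨f, by have := tr_mem S f 0; exact this⟩,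
    ⟨?_, ?_, ?_, ?_, ?_⟩, ?_⟩
  · intro z
    exact Subtype.ext (h.alg z)
  · intro x
    exact Subtype.ext (h.inv x)
  · intro x
    exact Subtype.ext (h.comm x)
  · exact Subtype.ext h.fix
  · intro z hz
    exact h.nc z (congrArg Subtype.val hz)
  · intro L' g1 g2
    rw [eq_top_iff]
    intro x _
    have key : ∀ y ∈ LL S f, y ∈ L'.map (algebraMap (LL S f) K) := by
      refine LL_le S f _ (fun a => ?_) fun n => ?_
      · exact ⟨_, g1 a, rfl⟩
      · exact ⟨_, g2 n, resAut_zpow_coe (h1 := σ_mem S f) (h2 := σ_inv_mem S f) n _⟩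
    obtain ⟨y, hy, hyx⟩ := key x x.2
    have : y = x := Subtype.ext hyx
    rwa [← this]

end Pool.Agent.Q2N.H86
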