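import Pool.Agent.Q2N.Stmts

/-!
# SG1: elements of order `≥ 0` have constant residue
-/

set_option autoImplicit false

open Module

namespace Pool.Agent.Q2N.H86

open Pool.Agent.UW Pool.Agent.UW.SkewLaurent

variable {F K : Type} [Field F] [Field K] [Algebra F K] {S : Dat F K}
variable {D : Type} [DivisionRing D] [Algebra F D]

/-- the coefficient of `t^k` as a linear map -/
noncomputable def cf (E : EndOf S D) (k : ℤ) : D →ₗ[F] K where
  toFun x := (E.χ x).coeff k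
  map_add' x y := by rw [map_add, coeff_add]
  map_smul' c x := by
    rw [Algebra.smul_def, map_mul, E.const, sgl_mul_coeff, zpow_zero, sub_zero, RingHom.id_apply,
      Algebra.smul_def]
    rfl

theorem cf_apply (E : EndOf S D) (k : ℤ) (x : D) : cf E k x = (E.χ x).coeff k := rfl

/-- `x` has order at least `m` -/
def Ge (E : EndOf S D) (x : D) (m : ℤ) : Prop := E.χ x ∈ SkewLaurent.P K S.σ m

theorem Ge.mul {E : EndOf S D} {x y : D} {m k : ℤ} (hx : Ge E x m) (hy : Ge E y k) :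
    Ge E (x * y) (m + k) := by
  show E.χ (x * y) ∈ _
  rw [map_mul]
  exact mul_mem_P hx hy

theorem cf_mul {E : EndOf S D} {x y : D} {m k : ℤ} (hx : Ge E x m) (hy : Ge E y k) :
    cf E (m + k) (x * y) = cf E m x * (S.σ ^ m) (cf E k y) := by
  rw [cf_apply, map_mul]
  exact coeff_mul_lead hx hy

theorem ge_one (E : EndOf S D) : Ge E (1 : D) 0 := by
  show E.χ 1 ∈ _
  rw [map_one]
  exact one_mem_P

theorem cf_one (E : EndOf S D) : cf E 0 (1 : D) = 1 := by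
  rw [cf_apply, map_one, coeff_one, if_pos rfl]

theorem Ge.pow {E : EndOf S D} {x : D} {m : ℤ} (hx : Ge E x m) (n : ℕ) : Ge E (x ^ n) (m * n) := by
  induction n with
  | zero =>
    rw [pow_zero, Nat.cast_zero, mul_zero]
    exact ge_one E
  | succ n ih =>
    rw [pow_succ, Nat.cast_succ, mul_add, mul_one]
    exact ih.mul hx

theorem cf_pow_ne {E : EndOf S D} {x : D} {m : ℤ} (hx : Ge E x m) (h : cf E m x ≠ 0) (n : ℕ) :
    cf E (m * n) (x ^ n) ≠ 0 := by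
  induction n with
  | zero =>
    rw [pow_zero, Nat.cast_zero, mul_zero, cf_one]
    exact one_ne_zero
  | succ n ih =>
    rw [pow_succ, Nat.cast_succ, mul_add, mul_one, cf_mul (hx.pow n) hx]
    exact mul_ne_zero ih fun h0 => h ((map_eq_zero_iff _ (S.σ ^ (m * (n : ℤ))).injective).1 h0)

theorem cf_pow_zero {E : EndOf S D} {x : D} (hx : Ge E x 0) (n : ℕ) :
    cf E 0 (x ^ n) = (cf E 0 x) ^ n := by
  induction n with
  | zero => rw [pow_zero, pow_zero, cf_one]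
  | succ n ih =>
    have h1 : Ge E (x ^ n) 0 := by
      have := hx.pow n
      rwa [zero_mul] at this
    have h2 := cf_mul h1 hx
    rw [add_zero, zpow_zero] at h2
    rw [pow_succ, h2, ih, pow_succ]
    rfl

/-- the residue of a power of an element of order `≥ 0` -/
theorem Ge.pow_zero {E : EndOf S D} {x : D} (hx : Ge E x 0) (n : ℕ) : Ge E (x ^ n) 0 := by
  have := hx.pow n
  rwa [zero_mul] at this

/-- some element has order different from zero -/
theorem exists_ne (E : EndOf S D) (A : Subalgebra F D) (hA : Frac A) :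
    ∃ b ∈ A, ∃ m : ℤ, m ≠ 0 ∧ Ge E b m ∧ cf E m b ≠ 0 := by
  obtain ⟨a, ha, s, hs, hs0, e⟩ := hA E.t
  have hχ : E.χ s ≠ 0 := fun h => hs0 ((map_eq_zero E.χ).1 h)
  obtain ⟨k, hk1, hk2⟩ := exists_order hχ
  by_cases hk : k = 0
  · subst hk
    have ht : Ge E E.t 1 := by
      intro i hi
      rw [E.χ_t, sgl_coeff, if_neg hi.ne]
    have ht' : cf E 1 E.t = 1 := by
      rw [cf_apply, E.χ_t, sgl_coeff, if_pos rfl]
    have ea : a = E.t * s := by
      rw [e, mul_assoc, inv_mul_cancel₀ hs0, mul_one]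
    have h1 := ht.mul (show Ge E s 0 from hk1)
    have h2 := cf_mul ht (show Ge E s 0 from hk1)
    rw [← ea, add_zero] at h1 h2
    refine ⟨a, ha, 1, one_ne_zero, h1, ?_⟩
    rw [h2, ht', one_mul]
    intro h0
    exact hk2 ((map_eq_zero_iff _ (S.σ ^ (1 : ℤ)).injective).1 h0)
  · exact ⟨s, hs, k, hk, hk1, hk2⟩

/-- the elements `b^i u^(e+1) b^j` are independent -/
theorem indep (ind : IndStmt) (E : EndOf S D) {b u : D} {m : ℤ} (hm : m ≠ 0) (hb : Ge E b m)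
    (hb0 : cf E m b ≠ 0) (hu : Ge E u 0) (hu0 : ∀ c : F, algebraMap F K c ≠ cf E 0 u) (n : ℕ) :
    LinearIndependent F (fun q : Fin (n + 1) × Fin (n + 1) × Fin n =>
      b ^ (q.1 : ℕ) * u ^ ((q.2.2 : ℕ) + 1) * b ^ (q.2.1 : ℕ)) := by
  classical
  have hI := ind F K S (cf E 0 u) hu0 m hm n
  -- the level and the leading coefficient
  have hge : ∀ i e j : ℕ, Ge E (b ^ i * u ^ (e + 1) * b ^ j) (m * (i + j : ℕ)) := by
    intro i e j
    have h1 := ((hb.pow i).mul (hu.pow_zero (e + 1))).mul (hb.pow j)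
    have h2 : m * (i : ℤ) + 0 + m * (j : ℤ) = m * ((i + j : ℕ) : ℤ) := by push_cast; ring
    rwa [h2] at h1
  have hlead : ∀ i e j : ℕ, cf E (m * (i + j : ℕ)) (b ^ i * u ^ (e + 1) * b ^ j) =
      cf E (m * (i + j : ℕ)) (b ^ (i + j)) * ((S.σ ^ (m * (i : ℤ))) (cf E 0 u)) ^ (e + 1) := by
    intro i e j
    have h2 : m * (i : ℤ) + m * (j : ℤ) = m * ((i + j : ℕ) : ℤ) := by push_cast; ring
    have h3 := cf_mul ((hb.pow i).mul (hu.pow_zero (e + 1))) (hb.pow j)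
    have h4 := cf_mul (hb.pow i) (hu.pow_zero (e + 1))
    have h5 := cf_mul (hb.pow i) (hb.pow j)
    rw [add_zero] at h3 h4
    rw [h2] at h3 h5
    rw [h3, h4, cf_pow_zero hu, map_pow (S.σ ^ (m * (i : ℤ))), pow_add b i j, h5]
    ring
  rw [linearIndependent_iff']
  intro s g hg q0 hq0
  by_contra hne
  obtain ⟨q1, hq1, hmin⟩ := Finset.exists_min_image (s.filter fun q => g q ≠ 0)
    (fun q => m * (((q.1 : ℕ) + (q.2.1 : ℕ) : ℕ) : ℤ)) ⟨q0, Finset.mem_filter.2 ⟨hq0, hne⟩⟩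
  obtain ⟨hq1s, hq1g⟩ := Finset.mem_filter.1 hq1
  set N : ℕ := (q1.1 : ℕ) + (q1.2.1 : ℕ) with hN
  set β : K := cf E (m * (N : ℕ)) (b ^ N) with hβ
  have hβ0 : β ≠ 0 := cf_pow_ne hb hb0 N
  have h0 := congrArg (cf E (m * (N : ℕ))) hg
  rw [map_zero, map_sum] at h0
  -- the terms
  have hterm : ∀ q ∈ s, cf E (m * (N : ℕ)) (g q • (b ^ (q.1 : ℕ) * u ^ ((q.2.2 : ℕ) + 1) *
      b ^ (q.2.1 : ℕ))) = if (q.1 : ℕ) + (q.2.1 : ℕ) = N then
        β * (g q • ((S.σ ^ (m * ((q.1 : ℕ) : ℤ))) (cf E 0 u)) ^ ((q.2.2 : ℕ) + 1)) else 0 := by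
    intro q hq
    rw [map_smul]
    by_cases hgq : g q = 0
    · rw [hgq]
      simp
    · split_ifs with h
      · rw [← h, hlead, h, ← hβ, mul_smul_comm]
      · have h1 := hmin q (Finset.mem_filter.2 ⟨hq, hgq⟩)
        have h2 : m * (N : ℤ) ≠ m * (((q.1 : ℕ) + (q.2.1 : ℕ) : ℕ) : ℤ) := by
          intro h3
          have := mul_left_cancel₀ hm h3
          exact h (by exact_mod_cast this.symm)
        have h3 : m * (N : ℤ) < m * (((q.1 : ℕ) + (q.2.1 : ℕ) : ℕ) : ℤ) := lt_of_le_of_ne h1 h2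
        have h4 : cf E (m * (N : ℤ)) (b ^ (q.1 : ℕ) * u ^ ((q.2.2 : ℕ) + 1) *
            b ^ (q.2.1 : ℕ)) = 0 := hge q.1 q.2.2 q.2.1 _ h3
        rw [h4, smul_zero]
  rw [Finset.sum_congr rfl hterm, ← Finset.sum_filter, ← Finset.mul_sum] at h0
  have h1 := (mul_eq_zero.1 h0).resolve_left hβ0
  -- compare with the independent family
  rw [linearIndependent_iff'] at hI
  let T : Finset (Fin (n + 1) × Fin n) :=
    (s.filter fun q => (q.1 : ℕ) + (q.2.1 : ℕ) = N).image fun q => (q.1, q.2.2)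
  let G : Fin (n + 1) × Fin n → F := fun p =>
    if h : N - (p.1 : ℕ) < n + 1 then g (p.1, ⟨N - (p.1 : ℕ), h⟩, p.2) else 0
  have hG : ∀ q : Fin (n + 1) × Fin (n + 1) × Fin n, (q.1 : ℕ) + (q.2.1 : ℕ) = N →
      G (q.1, q.2.2) = g q := by
    intro q hq
    have h2 : N - (q.1 : ℕ) = (q.2.1 : ℕ) := by omega
    have h3 : N - (q.1 : ℕ) < n + 1 := by rw [h2]; exact q.2.1.isLt
    show (if h : N - (q.1 : ℕ) < n + 1 then g (q.1, ⟨N - (q.1 : ℕ), h⟩, q.2.2) else 0) = g q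
    rw [dif_pos h3]
    congr 2
    exact Prod.ext (Fin.ext h2) rfl
  have h2 := hI T G ?_ (q1.1, q1.2.2) (Finset.mem_image.2 ⟨q1, Finset.mem_filter.2 ⟨hq1s, rfl⟩, rfl⟩)
  · rw [hG q1 rfl] at h2
    exact hq1g h2
  · rw [Finset.sum_image]
    · rw [← h1]
      refine Finset.sum_congr rfl fun q hq => ?_
      rw [hG q (Finset.mem_filter.1 hq).2]
    · intro q hq q' hq' e
      have e1 : q.1 = q'.1 := (Prod.ext_iff.1 e).1
      have e2 : q.2.2 = q'.2.2 := (Prod.ext_iff.1 e).2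
      have h3 := (Finset.mem_filter.1 hq).2
      have h4 := (Finset.mem_filter.1 hq').2
      have e3 : q.2.1 = q'.2.1 := by
        apply Fin.ext
        rw [e1] at h3
        omega
      exact Prod.ext e1 (Prod.ext e3 e2)

theorem rpow_sq (x : ℝ) (hx : 0 ≤ x) : (x ^ ((2 : ℝ) + 1 / 2)) ^ 2 = x ^ 5 := by
  rw [← Real.rpow_natCast (x ^ ((2 : ℝ) + 1 / 2)) 2, ← Real.rpow_mul hx, ← Real.rpow_natCast x 5]
  norm_num

theorem sg1 : Sg1Stmt := by
  intro ind F K _ _ _ S D _ _ E A hA hG u hu hu0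
  by_contra hcon
  have hcon' : ∀ c : F, algebraMap F K c ≠ cf E 0 u := fun c h => hcon ⟨c, h.symm⟩
  obtain ⟨b, hbA, m, hm, hb1, hb2⟩ := exists_ne E A hA
  set V : Submodule F D := Submodule.span F {1, b, u} with hV
  have h1V : (1 : D) ∈ V := Submodule.subset_span (by simp)
  have hbV : b ∈ V := Submodule.subset_span (by simp)
  have huV : u ∈ V := Submodule.subset_span (by simp)
  have hVA : V ≤ Subalgebra.toSubmodule A := by
    rw [hV, Submodule.span_le]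
    intro x hx
    rcases hx with rfl | rfl | rfl
    · exact A.one_mem
    · exact hbA
    · exact hu
  have hFG : V.FG := Submodule.fg_span (by simp)
  have hfd : FiniteDimensional F V := Module.Finite.iff_fg.2 hFG
  have hgr := hG V hVA hfd (Submodule.one_le.2 h1V) (1 / 2) (by norm_num)
  obtain ⟨N0, hN0⟩ := Filter.eventually_atTop.1 hgr
  obtain ⟨n, hn⟩ : ∃ n : ℕ, n = N0 + 244 := ⟨_, rfl⟩
  have hmono : ∀ {a c : ℕ}, a ≤ c → V ^ a ≤ V ^ c := fun h =>
    pow_le_pow_right₀ (Submodule.one_le.2 h1V) h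
  have hin : ∀ q : Fin (n + 1) × Fin (n + 1) × Fin n,
      b ^ (q.1 : ℕ) * u ^ ((q.2.2 : ℕ) + 1) * b ^ (q.2.1 : ℕ) ∈ V ^ (3 * n) := by
    intro q
    have h1 : b ^ (q.1 : ℕ) * u ^ ((q.2.2 : ℕ) + 1) * b ^ (q.2.1 : ℕ) ∈
        V ^ ((q.1 : ℕ) + ((q.2.2 : ℕ) + 1) + (q.2.1 : ℕ)) := by
      rw [pow_add, pow_add]
      exact Submodule.mul_mem_mul (Submodule.mul_mem_mul (Submodule.pow_mem_pow _ hbV _)
        (Submodule.pow_mem_pow _ huV _)) (Submodule.pow_mem_pow _ hbV _)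
    refine hmono ?_ h1
    have h2 := q.1.isLt
    have h3 := q.2.1.isLt
    have h4 := q.2.2.isLt
    omega
  have hfd3 : FiniteDimensional F (V ^ (3 * n) : Submodule F D) :=
    Module.Finite.iff_fg.2 (hFG.pow _)
  have hli := indep ind E hm hb1 hb2 (show Ge E u 0 from hu0) hcon' n
  have hli2 : LinearIndependent F (fun q : Fin (n + 1) × Fin (n + 1) × Fin n =>
      (⟨_, hin q⟩ : (V ^ (3 * n) : Submodule F D))) := by
    refine LinearIndependent.of_comp (V ^ (3 * n) : Submodule F D).subtype ?_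
    exact hli
  have hcard := hli2.fintype_card_le_finrank
  rw [Fintype.card_prod, Fintype.card_prod, Fintype.card_fin, Fintype.card_fin] at hcard
  have hup := hN0 (3 * n) (by omega)
  have h5 : ((n : ℝ)) ^ 3 ≤ (((3 * n : ℕ) : ℝ)) ^ ((2 : ℝ) + 1 / 2) := by
    refine le_trans ?_ hup
    have h6 : n ^ 3 ≤ (n + 1) * ((n + 1) * n) := by nlinarith
    exact_mod_cast h6.trans hcard
  have h7 : ((n : ℝ) ^ 3) ^ 2 ≤ ((((3 * n : ℕ) : ℝ)) ^ ((2 : ℝ) + 1 / 2)) ^ 2 :=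
    pow_le_pow_left₀ (by positivity) h5 2
  have h8 : ((((3 * n : ℕ) : ℝ)) ^ ((2 : ℝ) + 1 / 2)) ^ 2 = (3 * (n : ℝ)) ^ 5 := by
    rw [rpow_sq _ (Nat.cast_nonneg _), Nat.cast_mul]
    norm_num
  rw [h8] at h7
  have h9 : (244 : ℝ) ≤ n := by
    rw [hn]; push_cast
    linarith [(Nat.cast_nonneg N0 : (0 : ℝ) ≤ N0)]
  have h10 : (3 * (n : ℝ)) ^ 5 = 243 * (n : ℝ) ^ 5 := by ring
  have h11 : ((n : ℝ) ^ 3) ^ 2 = n * (n : ℝ) ^ 5 := by ring
  rw [h10, h11] at h7
  have hnpos : (0 : ℝ) < n := by linarith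
  have h12 : (0 : ℝ) < (n : ℝ) ^ 5 := pow_pos hnpos 5
  have h13 := le_of_mul_le_mul_right h7 h12
  linarith

end Pool.Agent.Q2N.H86
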